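import Mathlib

/-!
# ZE, piece LA: rows with a determinant different from zero
-/

set_option autoImplicit false

namespace Pool.Agent.Helper36.ZE

open Finset

/-- If no nonzero combination of the columns vanishes on all rows in `S`, some square minor with
rows in `S` is different from zero. -/
theorem exists_rows {F ι X : Type} [Field F] [Fintype ι] [DecidableEq ι] (S : Set X) (f : X → ι → F)
    (h : ∀ x : ι → F, x ≠ 0 → ∃ v ∈ S, ∑ c, x c * f v c ≠ 0) :
    ∃ g : ι → X, (∀ c, g c ∈ S) ∧ (Matrix.of fun c d => f (g c) d).det ≠ 0 := by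
  classical
  -- the rows span the space
  have hspan : Submodule.span F (f '' S) = ⊤ := by
    by_contra hne
    obtain ⟨φ, hφ, hφ0⟩ := Submodule.exists_le_ker_of_lt_top _ (lt_top_iff_ne_top.mpr hne)
    let x : ι → F := fun c => φ (Pi.single c 1)
    have hx : ∀ y : ι → F, φ y = ∑ c, x c * y c := by
      intro y
      conv_lhs => rw [← Finset.univ_sum_single y]
      rw [map_sum]
      refine Finset.sum_congr rfl fun c _ => ?_
      have : (Pi.single c (y c) : ι → F) = y c • Pi.single c (1 : F) := by
        rw [← Pi.single_smul]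
        simp
      rw [this, map_smul, smul_eq_mul, mul_comm]
    have hx0 : x ≠ 0 := by
      intro h0
      apply hφ
      refine LinearMap.ext fun y => ?_
      rw [hx, h0]
      simp
    obtain ⟨v, hv, hne0⟩ := h x hx0
    apply hne0
    rw [← hx]
    exact hφ0 (Submodule.subset_span ⟨v, hv, rfl⟩)
  obtain ⟨b, hb, hbs, hli⟩ := exists_linearIndependent F (f '' S)
  rw [hspan] at hbs
  have hfin : b.Finite := hli.setFinite
  have _ : Fintype b := hfin.fintype
  have hcard : Fintype.card ι = Fintype.card b := by
    have B := Module.Basis.mk hli (by rw [Subtype.range_coe_subtype]; simp [hbs])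
    have h1 := Module.finrank_eq_card_basis B
    rw [Module.finrank_fintype_fun_eq_card] at h1
    exact h1
  let e : ι ≃ b := Fintype.equivOfCardEq hcard
  have hg : ∀ c : ι, ∃ v ∈ S, f v = (e c : ι → F) := fun c => hb (e c).2
  choose g hgS hgf using hg
  refine ⟨g, hgS, ?_⟩
  have hli2 : LinearIndependent F (fun c : ι => ((e c : b) : ι → F)) := hli.comp e e.injective
  have hM : (Matrix.of fun c d => f (g c) d) = Matrix.of fun c : ι => ((e c : b) : ι → F) := by
    ext c d
    simp [hgf]
  rw [hM]
  have := (Matrix.linearIndependent_rows_iff_isUnit (A := Matrix.of fun c : ι => ((e c : b) : ι → F))).mp hli2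
  exact ((Matrix.isUnit_iff_isUnit_det _).mp this).ne_zero

end Pool.Agent.Helper36.ZE
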