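import Mathlib

/-!
# ZE, piece NUM: the final inequality

`final_ineq_gen` is the inequality with all parameters as variables; `final_ineq` is the case of
fixed parameters and large `L`, `final_ineqU` is the uniform form.
-/

set_option autoImplicit false

namespace Pool.Agent.Helper36.ZE

open Finset

theorem log_factorial_le (n : ℕ) : Real.log (n.factorial : ℝ) ≤ n * Real.log n := by
  have h1 : (n.factorial : ℝ) ≤ (n : ℝ) ^ n := by exact_mod_cast Nat.factorial_le_pow n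
  have h2 : (0 : ℝ) < n.factorial := by exact_mod_cast Nat.factorial_pos n
  calc Real.log (n.factorial : ℝ) ≤ Real.log ((n : ℝ) ^ n) := Real.log_le_log h2 h1
    _ = n * Real.log n := Real.log_pow n n

/-- The final inequality; all parameters are variables. -/
theorem final_ineq_gen (B l L lP lY lN : ℝ) (Q q r s0 K T0 T1 D : ℕ) (hB : 1 ≤ B) (hl : 0 < l)
    (hL0 : 0 < L) (hr : 2048 * B ≤ r + 1) (hs0 : 512 * B ≤ s0) (hK : 16 * B ≤ K)
    (hL : L ≤ 128 * B * l * Q) (hQq : Q < q) (hN : lN ≤ B * l)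
    (hP : 4 * Q * lP ≤ L) (hY : lY ≤ lP - l / 2) (hT0 : T0 ≤ D * T1) (hT1 : 1 ≤ T1)
    (hT1q : T1 ≤ q ^ r)
    (hsmall : ((D : ℝ) + 1) * (Real.log (D + 1) + r * Real.log q) +
      (D * (3 * ((r + 1) * (q * (s0 + 1))) + 2 * (s0 + 1)) + (r + 1) * (q * (s0 + 1))) * Real.log 2
        + 2 * (B * l) ≤ (r + 1) * (q * (s0 + 1)) * l / 16) :
    Real.log ((T0 + T1).factorial : ℝ) +
      T0 * ((3 * ((r + 1) * (q * (s0 + 1))) + 2 * (s0 + 1)) * Real.log 2) +
      T1 * ((r + 1) * (q * (s0 + 1)) * Real.log 2 + ((r + 1) * (q * (s0 + 1)) * lY +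
        2 * (s0 + 1) * L + (2 * ((r + 1) * (q * (s0 + 1))) / K + 2) * lN)) <
      ((r + 1) * s0 - 1) * q * T1 * lP := by
  have hq1 : 1 ≤ q := by omega
  have hq : (1 : ℝ) ≤ q := by exact_mod_cast hq1
  have hQpos : (0 : ℝ) < Q := by
    rcases Nat.eq_zero_or_pos Q with h | h
    · subst h
      simp at hL
      linarith
    · exact_mod_cast h
  have hQq' : (Q : ℝ) ≤ q := by exact_mod_cast hQq.le
  have ht1 : (1 : ℝ) ≤ T1 := by exact_mod_cast hT1
  have ht0 : (T0 : ℝ) ≤ D * T1 := by exact_mod_cast hT0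
  have hR : (0 : ℝ) ≤ r := Nat.cast_nonneg r
  have hs : (0 : ℝ) ≤ s0 := Nat.cast_nonneg s0
  have hD : (0 : ℝ) ≤ D := Nat.cast_nonneg D
  have hlog2 : 0 < Real.log 2 := Real.log_pos (by norm_num)
  -- the factorial
  have hfac : Real.log ((T0 + T1).factorial : ℝ) ≤
      T1 * (((D : ℝ) + 1) * (Real.log (D + 1) + r * Real.log q)) := by
    have h1 := log_factorial_le (T0 + T1)
    have h2 : ((T0 + T1 : ℕ) : ℝ) ≤ (D + 1) * T1 := by push_cast; linarith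
    have h3 : ((T0 + T1 : ℕ) : ℝ) ≤ (D + 1) * (q : ℝ) ^ r := by
      have h4 : (T1 : ℝ) ≤ (q : ℝ) ^ r := by exact_mod_cast hT1q
      nlinarith
    have h5 : (1 : ℝ) ≤ ((T0 + T1 : ℕ) : ℝ) := by push_cast; linarith [Nat.cast_nonneg (α := ℝ) T0]
    have h6 : Real.log ((T0 + T1 : ℕ) : ℝ) ≤ Real.log (D + 1) + r * Real.log q := by
      have h7 := Real.log_le_log (by linarith) h3
      rw [Real.log_mul (by positivity) (by positivity), Real.log_pow] at h7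
      exact h7
    have h8 : 0 ≤ Real.log ((T0 + T1 : ℕ) : ℝ) := Real.log_nonneg h5
    calc Real.log ((T0 + T1).factorial : ℝ) ≤ ((T0 + T1 : ℕ) : ℝ) * Real.log ((T0 + T1 : ℕ) : ℝ) := h1
      _ ≤ ((D + 1) * T1) * (Real.log (D + 1) + r * Real.log q) :=
          mul_le_mul h2 h6 h8 (by positivity)
      _ = _ := by ring
  set a : ℝ := (r + 1) * (q * (s0 + 1)) with ha
  have ha0 : 0 < a := by positivity
  have hlP : lP ≤ 32 * B * l := by
    have h1 : 4 * Q * lP ≤ 4 * Q * (32 * B * l) := by linarith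
    exact le_of_mul_le_mul_left h1 (by positivity)
  have e1 : q * (r + 2) * lP ≤ a * l / 8 := by
    have h1 : q * (r + 2) * lP ≤ q * (r + 2) * (32 * B * l) :=
      mul_le_mul_of_nonneg_left hlP (by positivity)
    have h2 : (r + 2 : ℝ) * (32 * B) ≤ (r + 1) * (s0 + 1) / 8 := by nlinarith
    have h3 : (q : ℝ) * l * ((r + 2 : ℝ) * (32 * B)) ≤ q * l * ((r + 1) * (s0 + 1) / 8) :=
      mul_le_mul_of_nonneg_left h2 (by positivity)
    rw [ha]
    linarith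
  have e2 : 2 * (s0 + 1) * L ≤ a * l / 8 := by
    have h1 : L ≤ 128 * B * l * q := le_trans hL (mul_le_mul_of_nonneg_left hQq' (by positivity))
    have h2 : 2 * (s0 + 1) * L ≤ 2 * ((s0 : ℝ) + 1) * (128 * B * l * q) :=
      mul_le_mul_of_nonneg_left h1 (by positivity)
    have h3 : (s0 + 1) * l * q * (2048 * B) ≤ ((s0 : ℝ) + 1) * l * q * (r + 1) :=
      mul_le_mul_of_nonneg_left hr (by positivity)
    rw [ha]
    linarith
  have hK0 : (0 : ℝ) < K := by linarith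
  have e3 : 2 * a / K * lN ≤ a * l / 8 := by
    have h1 : 2 * a / K * lN ≤ 2 * a / K * (B * l) := mul_le_mul_of_nonneg_left hN (by positivity)
    have h2 : 2 * a / K * (B * l) ≤ a * l / 8 := by
      rw [div_mul_eq_mul_div, div_le_iff₀ hK0]
      have h3 : a * l / 8 * (16 * B) ≤ a * l / 8 * K := mul_le_mul_of_nonneg_left hK (by positivity)
      linarith
    linarith
  have e4 : a * lY ≤ a * lP - a * l / 2 := by
    have := mul_le_mul_of_nonneg_left hY ha0.le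
    linarith
  have e5 : a * lP - ((r + 1) * s0 - 1) * q * lP = q * (r + 2) * lP := by rw [ha]; ring
  have main : ((D : ℝ) + 1) * (Real.log (D + 1) + r * Real.log q) +
      D * ((3 * a + 2 * (s0 + 1)) * Real.log 2) + (a * Real.log 2 + (a * lY + 2 * (s0 + 1) * L +
        (2 * a / K + 2) * lN)) < ((r + 1) * s0 - 1) * q * lP := by
    have e6 : 0 < a * l := by positivity
    have e7 : (2 * a / K + 2) * lN = 2 * a / K * lN + 2 * lN := by ring
    have e8 : ((D : ℝ) * (3 * a + 2 * (s0 + 1)) + a) * Real.log 2 =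
        D * ((3 * a + 2 * (s0 + 1)) * Real.log 2) + a * Real.log 2 := by ring
    linarith
  have hmul := mul_lt_mul_of_pos_left main (by linarith : (0 : ℝ) < T1)
  have e9 : T0 * ((3 * a + 2 * (s0 + 1)) * Real.log 2) ≤
      D * T1 * ((3 * a + 2 * (s0 + 1)) * Real.log 2) :=
    mul_le_mul_of_nonneg_right ht0 (by positivity)
  have e10 : (T1 : ℝ) * (((D : ℝ) + 1) * (Real.log (D + 1) + r * Real.log q) +
      D * ((3 * a + 2 * (s0 + 1)) * Real.log 2) + (a * Real.log 2 + (a * lY + 2 * (s0 + 1) * L +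
        (2 * a / K + 2) * lN))) = T1 * (((D : ℝ) + 1) * (Real.log (D + 1) + r * Real.log q)) +
      D * T1 * ((3 * a + 2 * (s0 + 1)) * Real.log 2) + T1 * (a * Real.log 2 + (a * lY +
        2 * (s0 + 1) * L + (2 * a / K + 2) * lN)) := by ring
  have e11 : (T1 : ℝ) * (((r + 1) * s0 - 1) * q * lP) = ((r + 1) * s0 - 1) * q * T1 * lP := by ring
  linarith

/-- The number of the exact columns is at most `dB B` times the number of the other columns. -/
def dB (B : ℕ) : ℕ := (2048 * B) * (512 * B) * ((2048 * B) * (512 * B) * (2048 * B - 1)) ^ (2048 * B - 1)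

theorem final_ineq_of (B : ℕ) (hB : 1 ≤ B) (L lP lY lN : ℝ) (Q q r s0 K T0 T1 : ℕ) (hLpos : 0 < L)
    (hl : 64 * ((dB B : ℝ) + 1) ^ 2 * (2048 * B) * 8 ≤ Real.log L)
    (hr : r + 1 = 2048 * B) (hs : s0 = 512 * B) (hK : K = 16 * B) (hLQ : L ≤ 128 * B * Real.log L * Q)
    (hQq : Q < q) (hN : lN ≤ B * Real.log L) (hP : 4 * Q * lP ≤ L)
    (hY : lY ≤ lP - Real.log L / 2)
    (hT0 : T0 ≤ ((r + 1) * s0) * ((r + 1) * s0 * r) ^ r * T1) (hT1 : 1 ≤ T1) (hT1q : T1 ≤ q ^ r) :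
    Real.log ((T0 + T1).factorial : ℝ) +
      T0 * ((3 * ((r + 1) * (q * (s0 + 1))) + 2 * (s0 + 1)) * Real.log 2) +
      T1 * ((r + 1) * (q * (s0 + 1)) * Real.log 2 + ((r + 1) * (q * (s0 + 1)) * lY + 2 * (s0 + 1) * L +
        (2 * ((r + 1) * (q * (s0 + 1))) / K + 2) * lN)) <
      ((r + 1) * s0 - 1) * q * T1 * lP := by
  obtain ⟨D, hDdef⟩ : ∃ D : ℕ, D = dB B := ⟨_, rfl⟩
  rw [← hDdef] at hl
  have hB1 : (1 : ℝ) ≤ B := by exact_mod_cast hB
  have hD0 : (0 : ℝ) ≤ D := Nat.cast_nonneg D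
  set l := Real.log L with hldef
  have hl0 : 0 < l := by
    refine lt_of_lt_of_le ?_ hl
    positivity
  have hrR : (r : ℝ) + 1 = 2048 * B := by exact_mod_cast hr
  have hr' : r = 2048 * B - 1 := by omega
  have hsR : (s0 : ℝ) = 512 * B := by exact_mod_cast hs
  have hKR : (K : ℝ) = 16 * B := by exact_mod_cast hK
  have hq1 : 1 ≤ q := by omega
  have hq : (1 : ℝ) ≤ q := by exact_mod_cast hq1
  have hT0' : T0 ≤ D * T1 := by
    rw [hDdef, dB, ← hr', ← hr, ← hs]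
    exact hT0
  refine final_ineq_gen B l L lP lY lN Q q r s0 K T0 T1 D hB1 hl0 hLpos hrR.ge hsR.ge hKR.ge hLQ hQq
    hN hP hY hT0' hT1 hT1q ?_
  have hR : (0 : ℝ) ≤ r := Nat.cast_nonneg r
  have hs1 : (0 : ℝ) ≤ s0 := Nat.cast_nonneg s0
  have hlogq : Real.log q ≤ q := (Real.log_le_sub_one_of_pos (by linarith)).trans (by linarith)
  have hlogq0 : 0 ≤ Real.log q := Real.log_nonneg hq
  have hlogD : Real.log ((D : ℝ) + 1) ≤ D + 1 :=
    (Real.log_le_sub_one_of_pos (by linarith)).trans (by linarith)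
  have hlog2 : Real.log 2 ≤ 1 := (Real.log_le_sub_one_of_pos (by norm_num)).trans (by norm_num)
  have hlog20 : 0 ≤ Real.log 2 := Real.log_nonneg (by norm_num)
  have hd1 : (1 : ℝ) ≤ D + 1 := by linarith
  have hd2 : ((D : ℝ) + 1) ≤ (D + 1) ^ 2 := by nlinarith
  have hd3 : ((D : ℝ) + 1) * 1 ≤ ((D : ℝ) + 1) ^ 2 * B := mul_le_mul hd2 hB1 (by norm_num) (by positivity)
  have hd4 : ((D : ℝ) + 1) ^ 2 * 1 ≤ ((D : ℝ) + 1) ^ 2 * B := mul_le_mul_of_nonneg_left hB1 (by positivity)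
  have hl5 : 64 * (5 * ((D : ℝ) + 1)) ≤ l := by linarith
  have hl64 : 64 * (((D : ℝ) + 1) * (D + 1)) ≤ l := by
    have : 0 ≤ ((D : ℝ) + 1) ^ 2 := by positivity
    linarith
  set a : ℝ := (r + 1) * (q * (s0 + 1)) with ha
  have haq : q ≤ a := by
    have h1 : (1 : ℝ) ≤ (r + 1) * (s0 + 1) := by nlinarith
    have h2 : (q : ℝ) * 1 ≤ q * ((r + 1) * (s0 + 1)) := mul_le_mul_of_nonneg_left h1 (by linarith)
    rw [ha]
    linarith
  have has : s0 + 1 ≤ a := by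
    have h1 : (1 : ℝ) ≤ (r + 1) * q := by nlinarith
    have h2 : ((s0 : ℝ) + 1) * 1 ≤ (s0 + 1) * ((r + 1) * q) := mul_le_mul_of_nonneg_left h1 (by linarith)
    rw [ha]
    linarith
  have haB : 128 * B ≤ a := by
    have h1 : (1 : ℝ) ≤ q * (s0 + 1) := by nlinarith
    have h2 : ((r : ℝ) + 1) * 1 ≤ (r + 1) * (q * (s0 + 1)) := mul_le_mul_of_nonneg_left h1 (by linarith)
    rw [ha]
    linarith
  have ha1 : 1 ≤ a := by linarith
  have t1 : ((D : ℝ) + 1) * Real.log (D + 1) ≤ a * l / 64 := by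
    have h1 : ((D : ℝ) + 1) * Real.log (D + 1) ≤ (D + 1) * (D + 1) :=
      mul_le_mul_of_nonneg_left hlogD (by linarith)
    have h2 : (1 : ℝ) * l ≤ a * l := mul_le_mul_of_nonneg_right ha1 hl0.le
    linarith
  have t2 : ((D : ℝ) + 1) * (r * Real.log q) ≤ a * l / 64 := by
    have h1 : (r : ℝ) * Real.log q ≤ (2048 * B) * q := mul_le_mul (by linarith) hlogq hlogq0 (by positivity)
    have h2 : ((D : ℝ) + 1) * (r * Real.log q) ≤ (D + 1) * ((2048 * B) * q) :=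
      mul_le_mul_of_nonneg_left h1 (by linarith)
    have h3 : 64 * (((D : ℝ) + 1) * (2048 * B)) ≤ l := by
      have : ((D : ℝ) + 1) * (2048 * B) ≤ (D + 1) ^ 2 * (2048 * B) :=
        mul_le_mul_of_nonneg_right hd2 (by positivity)
      have h4 : 0 ≤ ((D : ℝ) + 1) ^ 2 * (2048 * B) := by positivity
      linarith
    have h5 : 64 * (((D : ℝ) + 1) * (2048 * B)) * q ≤ l * a :=
      mul_le_mul h3 haq (by linarith) hl0.le
    linarith
  have t3 : ((D : ℝ) * (3 * a + 2 * (s0 + 1)) + a) * Real.log 2 ≤ a * l / 64 := by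
    have h1 : ((D : ℝ) * (3 * a + 2 * (s0 + 1)) + a) ≤ 5 * (D + 1) * a := by nlinarith
    have h2 : ((D : ℝ) * (3 * a + 2 * (s0 + 1)) + a) * Real.log 2 ≤ 5 * (D + 1) * a * 1 :=
      mul_le_mul h1 hlog2 hlog20 (by positivity)
    have h4 : 64 * (5 * ((D : ℝ) + 1)) * a ≤ l * a := mul_le_mul_of_nonneg_right hl5 (by linarith)
    linarith
  have t4 : 2 * (B * l) ≤ a * l / 64 := by
    have := mul_le_mul_of_nonneg_right haB hl0.le
    linarith
  have e : ((D : ℝ) + 1) * (Real.log (D + 1) + r * Real.log q) =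
      (D + 1) * Real.log (D + 1) + (D + 1) * (r * Real.log q) := by ring
  rw [e]
  linarith

theorem final_ineq (B : ℕ) (hB : 1 ≤ B) : ∃ L0 : ℝ, ∀ (L lP lY lN : ℝ) (Q q r s0 K T0 T1 : ℕ), L0 ≤ L →
    r + 1 = 2048 * B → s0 = 512 * B → K = 16 * B → L ≤ 128 * B * Real.log L * Q → Q < q →
    0 ≤ lN → lN ≤ B * Real.log L → 4 * Q * lP ≤ L → 0 ≤ lY → lY ≤ lP - Real.log L / 2 →
    T0 ≤ ((r + 1) * s0) * ((r + 1) * s0 * r) ^ r * T1 → 1 ≤ T1 → T1 ≤ q ^ r →
    Real.log ((T0 + T1).factorial : ℝ) +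
      T0 * ((3 * ((r + 1) * (q * (s0 + 1))) + 2 * (s0 + 1)) * Real.log 2) +
      T1 * ((r + 1) * (q * (s0 + 1)) * Real.log 2 + ((r + 1) * (q * (s0 + 1)) * lY + 2 * (s0 + 1) * L +
        (2 * ((r + 1) * (q * (s0 + 1))) / K + 2) * lN)) <
      ((r + 1) * s0 - 1) * q * T1 * lP := by
  refine ⟨Real.exp (64 * ((dB B : ℝ) + 1) ^ 2 * (2048 * B) * 8), ?_⟩
  intro L lP lY lN Q q r s0 K T0 T1 hL hr hs hK hLQ hQq _ hN hP _ hY hT0 hT1 hT1q
  have hLpos : 0 < L := lt_of_lt_of_le (Real.exp_pos _) hL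
  refine final_ineq_of B hB L lP lY lN Q q r s0 K T0 T1 hLpos ?_ hr hs hK hLQ hQq hN hP hY hT0 hT1 hT1q
  rw [← Real.log_exp (64 * ((dB B : ℝ) + 1) ^ 2 * (2048 * B) * 8)]
  exact Real.log_le_log (Real.exp_pos _) hL

theorem dB_le (B : ℕ) (hB : 1 ≤ B) : 64 * (dB B + 1) ^ 2 * (2048 * B) * 8 ≤ (B + 1) ^ (140000 * B) := by
  have h2 : 2 ≤ B + 1 := by omega
  have hp : ∀ n : ℕ, 2 ^ n ≤ (B + 1) ^ n := fun n => Nat.pow_le_pow_left h2 n
  have hBB : B ≤ B + 1 := by omega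
  have h1 : (2048 * B) * (512 * B) ≤ (B + 1) ^ 22 := by
    calc (2048 * B) * (512 * B) = 2 ^ 20 * (B * B) := by ring
      _ ≤ (B + 1) ^ 20 * ((B + 1) * (B + 1)) := Nat.mul_le_mul (hp 20) (Nat.mul_le_mul hBB hBB)
      _ = (B + 1) ^ 22 := by ring
  have h3 : (2048 * B) * (512 * B) * (2048 * B - 1) ≤ (B + 1) ^ 34 := by
    calc (2048 * B) * (512 * B) * (2048 * B - 1) ≤ (B + 1) ^ 22 * (2 ^ 11 * (B + 1)) :=
          Nat.mul_le_mul h1 (by omega)
      _ ≤ (B + 1) ^ 22 * ((B + 1) ^ 11 * (B + 1)) :=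
          Nat.mul_le_mul_left _ (Nat.mul_le_mul_right _ (hp 11))
      _ = (B + 1) ^ 34 := by ring
  have h4 : dB B ≤ (B + 1) ^ (22 + 69632 * B) := by
    unfold dB
    calc (2048 * B) * (512 * B) * ((2048 * B) * (512 * B) * (2048 * B - 1)) ^ (2048 * B - 1)
        ≤ (B + 1) ^ 22 * ((B + 1) ^ 34) ^ (2048 * B - 1) :=
          Nat.mul_le_mul h1 (Nat.pow_le_pow_left h3 _)
      _ ≤ (B + 1) ^ 22 * ((B + 1) ^ 34) ^ (2048 * B) :=
          Nat.mul_le_mul_left _ (Nat.pow_le_pow_right (by positivity) (by omega))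
      _ = (B + 1) ^ (22 + 69632 * B) := by
          rw [← pow_mul, ← pow_add]
          congr 1
          ring
  have h5 : dB B + 1 ≤ (B + 1) ^ (23 + 69632 * B) := by
    have h6 : 1 ≤ (B + 1) ^ (22 + 69632 * B) := Nat.one_le_pow _ _ (by omega)
    calc dB B + 1 ≤ (B + 1) ^ (22 + 69632 * B) * 2 := by omega
      _ ≤ (B + 1) ^ (22 + 69632 * B) * (B + 1) := Nat.mul_le_mul_left _ h2
      _ = (B + 1) ^ (23 + 69632 * B) := by rw [← pow_succ]; congr 1; ring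
  calc 64 * (dB B + 1) ^ 2 * (2048 * B) * 8 = 2 ^ 20 * ((dB B + 1) ^ 2 * B) := by ring
    _ ≤ (B + 1) ^ 20 * (((B + 1) ^ (23 + 69632 * B)) ^ 2 * (B + 1)) :=
        Nat.mul_le_mul (hp 20) (Nat.mul_le_mul (Nat.pow_le_pow_left h5 2) hBB)
    _ = (B + 1) ^ (67 + 139264 * B) := by
        rw [← pow_mul, ← pow_succ, ← pow_add]
        congr 1
        ring
    _ ≤ (B + 1) ^ (140000 * B) := Nat.pow_le_pow_right (by omega) (by omega)

theorem final_ineqU : ∃ D : ℕ, ∀ (B : ℕ) (L lP lY lN : ℝ) (Q q r s0 K T0 T1 : ℕ), 1 ≤ B → 1 ≤ L →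
    ((B + 1 : ℕ) : ℝ) ^ (D * B) ≤ Real.log L →
    r + 1 = 2048 * B → s0 = 512 * B → K = 16 * B → L ≤ 128 * B * Real.log L * Q → Q < q →
    0 ≤ lN → lN ≤ B * Real.log L → 4 * Q * lP ≤ L → 0 ≤ lY → lY ≤ lP - Real.log L / 2 →
    T0 ≤ ((r + 1) * s0) * ((r + 1) * s0 * r) ^ r * T1 → 1 ≤ T1 → T1 ≤ q ^ r →
    Real.log ((T0 + T1).factorial : ℝ) +
      T0 * ((3 * ((r + 1) * (q * (s0 + 1))) + 2 * (s0 + 1)) * Real.log 2) +
      T1 * ((r + 1) * (q * (s0 + 1)) * Real.log 2 + ((r + 1) * (q * (s0 + 1)) * lY + 2 * (s0 + 1) * L +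
        (2 * ((r + 1) * (q * (s0 + 1))) / K + 2) * lN)) <
      ((r + 1) * s0 - 1) * q * T1 * lP := by
  refine ⟨140000, ?_⟩
  intro B L lP lY lN Q q r s0 K T0 T1 hB hL hBL hr hs hK hLQ hQq _ hN hP _ hY hT0 hT1 hT1q
  refine final_ineq_of B hB L lP lY lN Q q r s0 K T0 T1 (by linarith) ?_ hr hs hK hLQ hQq hN hP hY
    hT0 hT1 hT1q
  refine le_trans ?_ hBL
  exact_mod_cast dB_le B hB

end Pool.Agent.Helper36.ZE
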